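import Pool.Agent.Q1.SL.GmUni

set_option autoImplicit false

/-!
# Affine varieties: Laurent curves and iterated linear differential equations

Let `V` be an integral affine variety over `ℂ`, given by a prime ideal `I` of `ℂ[x_1, ..., x_n]`. We
consider curves `f : Ω → V` on arbitrary domains `Ω` of the plane (for instance entire curves,
`Ω = ℂ`) with affine coordinates given by `s` iterated linear differential equations with matrices of
size `r` and polynomials of degree at most `e` (`DVec Ω s r e f`): there are invertible matrices
`X_1(z), ..., X_s(z)` of size `r` of analytic functions on `Ω` such that the entries of
`X_l'(z) X_l(z)⁻¹` are values of polynomials with constant coefficients, of degree at most `e` in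
each variable, at the entries of `X_i(z)`, `X_i(z)⁻¹`, `i < l`, and the coordinates of `f(z)` are
values of such polynomials at the entries of all these matrices.

The following are equivalent:

(1) over no extension field of `ℂ` there is a nonconstant Laurent curve `p(t) / t ^ m`, `t ≠ 0`, on
`V` through a point which is generic over `ℂ` (`V` is not covered by images of the punctured line);

(2) for every `d` there is ONE proper closed subset `V ∩ {G = 0}` of `V` which contains all
nonconstant Laurent curves of degree at most `d` on `V`;

(3) for all `s`, `r`, `e` there is ONE proper closed subset `V ∩ {G = 0}` of `V` which contains all
nonconstant curves on `V`, on all domains `Ω`, given by `s` iterated linear differential equations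
with matrices of size `r` and polynomials of degree at most `e`.

So an affine variety which is not covered by images of the punctured line (for instance of log
general type) is pseudo Brody hyperbolic for entire curves of bounded complexity of this kind.
-/

namespace Pool.Agent.Results.MP_64ff02_ag.BoundedComplexityAffine

open MvPolynomial Pool.Agent.Q1.SL

theorem result {n : ℕ} (I : Ideal (MvPolynomial (Fin n) ℂ)) (hprime : I.IsPrime) :
    List.TFAE [¬ GmUniruled I, LauDeg I, OdeDegA I] :=
  gm_tfae hprime

end Pool.Agent.Results.MP_64ff02_ag.BoundedComplexityAffine
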