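import Mathlib
import Pool.Agent.Q21.DW.Gen
import Pool.Agent.Results.MP_2ae8fe_ag.TwistsPowerSaving

set_option autoImplicit false

/-! # Twists by the windows of digits of a real number have no rational point

For almost every real number `α` and every even cyclic cover `w ^ m = F` of a product of elliptic
curves with complex multiplication as in `TwistsPowerSaving`, ALL twists `w ^ m = ± n F` by the numbers
`n` which are read off from `k` consecutive digits of `α` (in any base `g`, from any position up to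
`g ^ (κ k)`, `κ < 1 / 4`, `k` large) have no rational point.  The set of all `α` for which this fails
for some cover (positions up to `η k`) has Hausdorff dimension at most `(3 / 4 + η) / (1 + η)`.  The
same for the integer parts of `α λ_k`. -/

namespace Pool.Agent.Results.MP_2ae8fe_ag.DigitWindows

open MeasureTheory Filter Pool.Agent.H901R3.MS

/-- a cyclic cover `w ^ m = F` of the product of the `r` curves
`y ^ 2 z = x ^ 3 + a i x z ^ 2 + b i z ^ 3`, the polynomial `F` in the `3 r` homogeneous coordinates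
being given by its coefficients `f` -/
structure Cover where
  r : ℕ
  a : Fin r → ℤ
  b : Fin r → ℤ
  m : ℕ
  f : Expo r →₀ ℤ

/-- the twist `w ^ m = n F` has a rational point: there are rational points `V i` of the `r` curves
and a rational number `w` such that `w ^ m = n F(V)` -/
def HasPoint (X : Cover) (n : ℤ) : Prop :=
  ∃ (V : Fin X.r → Fin 3 → ℚ) (w : ℚ),
    (∀ i, OnE (X.a i) (X.b i) (V i)) ∧ w ^ X.m = n * ev X.f V

/-- the curves have the form `y ^ 2 = x ^ 3 + a x` or `y ^ 2 = x ^ 3 + b`, `m` is even, `F` is a form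
of multidegree `(d 1, …, d r)` with `m ∣ d i`, and for some `M ≥ 1` it has no zero on the product of the
curves modulo `p` for all large primes `p ≡ -1` modulo `M` -/
def Admissible (X : Cover) : Prop :=
  (∀ i, (X.b i = 0 ∧ X.a i ≠ 0) ∨ (X.a i = 0 ∧ X.b i ≠ 0)) ∧ 2 ∣ X.m ∧
    (∃ d : Fin X.r → ℕ, (∀ i, X.m ∣ d i) ∧ Homog X.f d) ∧
    ∃ M : ℕ, 1 ≤ M ∧ ∃ p₁ : ℕ, ∀ (p : ℕ) (_ : Fact p.Prime), p₁ ≤ p → M ∣ p + 1 →
      ∀ P : (i : Fin X.r) → Pt (X.a i : ZMod p) (X.b i : ZMod p), ev X.f (fun i => rep (P i)) ≠ 0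

/-- the quadratic twist by `n` of the double cover
`w ^ 2 = ∏ (y i ^ 2 + 1)`, `y i ^ 2 = x i ^ 3 + a i x i`, has a rational point -/
def ExamplePoint {r : ℕ} (a : Fin r → ℤ) (n : ℤ) : Prop :=
  ∃ (V : Fin r → Fin 3 → ℚ) (w : ℚ),
    (∀ i, OnE (a i) 0 (V i)) ∧ w ^ 2 = n * ∏ i, (V i 1 ^ 2 + V i 2 ^ 2)

/-- the number written by the `k` digits number `j + 1, …, j + k` after the point of `α` in base `g` -/
noncomputable def window (g j k : ℕ) (α : ℝ) : ℕ := (⌊(g : ℝ) ^ (j + k) * α⌋ % (g : ℤ) ^ k).toNat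

/-- `X` is admissible and `n ≠ 0`, and neither the twist by `n` nor the twist by `-n` has a rational
point -/
def NoPoints (X : Cover) (n : ℕ) : Prop := n ≠ 0 ∧ ¬ HasPoint X n ∧ ¬ HasPoint X (-n)

/-- the same for the examples -/
def NoExamplePoints {r : ℕ} (a : Fin r → ℤ) (n : ℕ) : Prop :=
  n ≠ 0 ∧ ¬ ExamplePoint a n ∧ ¬ ExamplePoint a (-n)

section

def toSig (X : Cover) : Σ r : ℕ, ((Fin r → ℤ) × (Fin r → ℤ) × ℕ × (Expo r →₀ ℤ)) :=
  ⟨X.r, X.a, X.b, X.m, X.f⟩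

instance : Countable Cover := by
  refine Function.Injective.countable (f := toSig) ?_
  rintro ⟨r, a, b, m, f⟩ ⟨r', a', b', m', f'⟩ h
  unfold toSig at h
  simp only [Sigma.mk.injEq] at h
  obtain ⟨rfl, h⟩ := h
  simp only [heq_eq_eq, Prod.mk.injEq] at h
  obtain ⟨rfl, rfl, rfl, rfl⟩ := h
  rfl

/-- the bad integers -/
def Bad : Cover ⊕ (Σ r : ℕ, (Fin r → ℤ)) → ℕ → Prop
  | Sum.inl X, n => Admissible X ∧ (HasPoint X n ∨ HasPoint X (-n))
  | Sum.inr ⟨_, a⟩, n => (∀ i, a i ≠ 0) ∧ (ExamplePoint a n ∨ ExamplePoint a (-n))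

lemma ps_of (H : ℤ → Prop) (h : ∀ ε : ℝ, 0 < ε → ∃ C : ℝ, ∀ N : ℕ, 1 ≤ N →
      (({n : ℤ | |n| ≤ N ∧ H n}.ncard : ℕ) : ℝ) ≤ C * (N : ℝ) ^ (3 / 4 + ε)) :
    Pool.Agent.Q21.DW.PS (3 / 4) (fun n => H n ∨ H (-n)) := by
  classical
  intro t ht
  obtain ⟨C, hC⟩ := h (t - 3 / 4) (by linarith)
  rw [add_sub_cancel] at hC
  refine ⟨2 * C, fun N hN => ?_⟩
  have hfin : {n : ℤ | |n| ≤ N ∧ H n}.Finite :=
    (Set.finite_Icc (-(N : ℤ)) N).subset fun n hn => ⟨(abs_le.1 hn.1).1, (abs_le.1 hn.1).2⟩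
  have h1 : ((Finset.Icc 1 N).filter (fun n : ℕ => H n)).card ≤ {n : ℤ | |n| ≤ N ∧ H n}.ncard := by
    rw [← Set.ncard_coe_finset]
    refine Set.ncard_le_ncard_of_injOn (fun n : ℕ => (n : ℤ)) ?_ ?_ hfin
    · intro n hn
      rw [Finset.mem_coe, Finset.mem_filter, Finset.mem_Icc] at hn
      refine ⟨?_, hn.2⟩
      rw [Nat.abs_cast]
      exact_mod_cast hn.1.2
    · intro x _ y _ hxy
      exact Int.natCast_inj.1 hxy
  have h2 : ((Finset.Icc 1 N).filter (fun n : ℕ => H (-n))).card ≤ {n : ℤ | |n| ≤ N ∧ H n}.ncard := by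
    rw [← Set.ncard_coe_finset]
    refine Set.ncard_le_ncard_of_injOn (fun n : ℕ => (-n : ℤ)) ?_ ?_ hfin
    · intro n hn
      rw [Finset.mem_coe, Finset.mem_filter, Finset.mem_Icc] at hn
      refine ⟨?_, hn.2⟩
      rw [abs_neg, Nat.abs_cast]
      exact_mod_cast hn.1.2
    · intro x _ y _ hxy
      exact Int.natCast_inj.1 (neg_injective hxy)
  have h3 : ((Finset.Icc 1 N).filter (fun n : ℕ => H n ∨ H (-n))).card ≤
      2 * {n : ℤ | |n| ≤ N ∧ H n}.ncard := by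
    rw [Finset.filter_or]
    refine (Finset.card_union_le _ _).trans ?_
    omega
  have h4 : (((Finset.Icc 1 N).filter (fun n : ℕ => H n ∨ H (-n))).card : ℝ) ≤
      2 * ({n : ℤ | |n| ≤ N ∧ H n}.ncard : ℝ) := by exact_mod_cast h3
  refine le_trans (Nat.cast_le.2 (Pool.Agent.Q21.DW.card_mono fun m hm h5 => ⟨hm, h5⟩))
    (h4.trans ?_)
  have h5 := hC N hN
  linarith

lemma ps_bad (i : Cover ⊕ (Σ r : ℕ, (Fin r → ℤ))) : Pool.Agent.Q21.DW.PS (3 / 4) (Bad i) := by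
  classical
  rcases i with X | ⟨r, a⟩
  · by_cases hX : Admissible X
    · obtain ⟨h1, h2, ⟨d, h3, h4⟩, M, h5, h6⟩ := hX
      have h7 := ps_of (HasPoint X) fun ε hε =>
        TwistsPowerSaving.result X.r X.a X.b h1 X.m h2 X.f d h3 h4 M h5 h6 ε hε
      intro t ht
      obtain ⟨C, hC⟩ := h7 t ht
      refine ⟨C, fun N hN => le_trans ?_ (hC N hN)⟩
      exact Nat.cast_le.2 (Pool.Agent.Q21.DW.card_mono fun n hn h8 => ⟨hn, h8.2⟩)
    · intro t ht
      refine ⟨0, fun N hN => ?_⟩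
      rw [Finset.filter_false_of_mem fun n hn h8 => hX h8.1]
      simp
  · by_cases ha : ∀ i, a i ≠ 0
    · have h7 := ps_of (ExamplePoint a) fun ε hε => TwistsPowerSaving.twist_example r a ha ε hε
      intro t ht
      obtain ⟨C, hC⟩ := h7 t ht
      refine ⟨C, fun N hN => le_trans ?_ (hC N hN)⟩
      exact Nat.cast_le.2 (Pool.Agent.Q21.DW.card_mono fun n hn h8 => ⟨hn, h8.2⟩)
    · intro t ht
      refine ⟨0, fun N hN => ?_⟩
      rw [Finset.filter_false_of_mem fun n hn h8 => ha h8.1]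
      simp

lemma noPoints_of {X : Cover} (hX : Admissible X) {n : ℕ} (h : n ≠ 0 ∧ ¬ Bad (Sum.inl X) n) :
    NoPoints X n := by
  refine ⟨h.1, fun h1 => h.2 ⟨hX, Or.inl h1⟩, fun h1 => h.2 ⟨hX, Or.inr h1⟩⟩

lemma noExample_of {r : ℕ} {a : Fin r → ℤ} (ha : ∀ i, a i ≠ 0) {n : ℕ}
    (h : n ≠ 0 ∧ ¬ Bad (Sum.inr ⟨r, a⟩) n) : NoExamplePoints a n := by
  refine ⟨h.1, fun h1 => h.2 ⟨ha, Or.inl h1⟩, fun h1 => h.2 ⟨ha, Or.inr h1⟩⟩

end

theorem result :
    (∀ᵐ α : ℝ, ∀ g : ℕ, 2 ≤ g → ∀ κ : ℝ, κ < 1 / 4 →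
      (∀ X : Cover, Admissible X → ∀ᶠ k : ℕ in atTop, ∀ j : ℕ, (j : ℝ) ≤ (g : ℝ) ^ (κ * k) →
        NoPoints X (window g j k α)) ∧
      ∀ (r : ℕ) (a : Fin r → ℤ), (∀ i, a i ≠ 0) → ∀ᶠ k : ℕ in atTop, ∀ j : ℕ,
        (j : ℝ) ≤ (g : ℝ) ^ (κ * k) → NoExamplePoints a (window g j k α)) ∧
    (∀ η : ℝ, 0 ≤ η → dimH {α : ℝ | ¬ ∀ g : ℕ, 2 ≤ g →
      (∀ X : Cover, Admissible X → ∀ᶠ k : ℕ in atTop, ∀ j : ℕ, (j : ℝ) ≤ η * k →
        NoPoints X (window g j k α)) ∧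
      ∀ (r : ℕ) (a : Fin r → ℤ), (∀ i, a i ≠ 0) → ∀ᶠ k : ℕ in atTop, ∀ j : ℕ, (j : ℝ) ≤ η * k →
        NoExamplePoints a (window g j k α)} ≤ ENNReal.ofReal ((3 / 4 + η) / (1 + η))) ∧
    (∀ t s : ℝ, 3 / 4 < t → t < s → ∀ l : ℕ → ℝ, (∀ k, 0 < l k) →
      Summable (fun k => l k ^ (t - s)) →
      μH[s] {α : ℝ | 0 < α ∧ ¬ ((∀ X : Cover, Admissible X → ∀ᶠ k : ℕ in atTop,
        NoPoints X ⌊α * l k⌋₊) ∧ ∀ (r : ℕ) (a : Fin r → ℤ), (∀ i, a i ≠ 0) →
          ∀ᶠ k : ℕ in atTop, NoExamplePoints a ⌊α * l k⌋₊)} = 0) := by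
  refine ⟨?_, ?_, ?_⟩
  · have h := Pool.Agent.Q21.DW.all_windows Bad (fun _ => 3 / 4) (fun _ => by norm_num)
      (fun _ => by norm_num) ps_bad
    filter_upwards [h] with α hα g hg κ hκ
    refine ⟨fun X hX => ?_, fun r a ha => ?_⟩
    · filter_upwards [hα (Sum.inl X) g hg κ (by linarith)] with k hk j hj
      exact noPoints_of hX (hk j hj)
    · filter_upwards [hα (Sum.inr ⟨r, a⟩) g hg κ (by linarith)] with k hk j hj
      exact noExample_of ha (hk j hj)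
  · intro η hη
    refine le_trans (dimH_mono ?_) (Pool.Agent.Q21.DW.dim_all_windows Bad (3 / 4) η (by norm_num)
      (by norm_num) hη ps_bad)
    intro α hα hcon
    refine hα fun g hg => ⟨fun X hX => ?_, fun r a ha => ?_⟩
    · filter_upwards [hcon (Sum.inl X) g hg] with k hk j hj
      exact noPoints_of hX (hk j hj)
    · filter_upwards [hcon (Sum.inr ⟨r, a⟩) g hg] with k hk j hj
      exact noExample_of ha (hk j hj)
  · intro t s ht hs l hl hsum
    refine measure_mono_null ?_ (Pool.Agent.Q21.DW.all_seq Bad (3 / 4) t s (by norm_num) ht hs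
      ps_bad l hl hsum)
    rintro α ⟨h0, hα⟩
    refine ⟨h0, fun hcon => hα ⟨fun X hX => ?_, fun r a ha => ?_⟩⟩
    · filter_upwards [hcon (Sum.inl X)] with k hk
      exact noPoints_of hX hk
    · filter_upwards [hcon (Sum.inr ⟨r, a⟩)] with k hk
      exact noExample_of ha hk

end Pool.Agent.Results.MP_2ae8fe_ag.DigitWindows
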